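import Pool.Agent.KS6_40.CA.Row

/-!
# In every dimension: computation-universal, but each configuration computes only one function

The definitions `Cfg`, `CA`, `TuringDomain`, `Computes`, `UniversalComputer` (for cellular automata on
`ℤ^d`) are those of the problem file.

In every dimension `d ≥ 1` there are a cellular automaton on `ℤ^d` and a Turing domain `T` such that
every partial recursive function is computed by a finite configuration, but any two partial functions
computed by one and the same configuration `c` with the help of admissible programs (translates of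
members of `T` which are disjoint from `c` and not in `T`) are compatible: they agree wherever both
are defined. So `c` computes at most one total function, no configuration is a universal computer,
and no finite family of configurations is universal: given `m` configurations, one of the constant
functions `0, ..., m` is computed by none of them.

Idea. The automaton of the library acts on the lines parallel to the first axis; the members of `T`
are the single markers at the points of `ℤ^d` other than the origin, the input `n` is the marker at
the point `n + 1` of the first axis. A translate of a member outside `T` is the marker at the origin,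
so there is only one program. If `c` with this program shows the output `i` at the time `t` then
(no information is passed to the output) the marker of `i` stays for ever, so no other output can be
shown later.
-/

set_option autoImplicit false

namespace Pool.Agent.Results.MP_8a6a08_lc.AllDimensions

open Pool.Agent.Q201.CU Pool.Agent.KS6_40.CA

/-- The configuration `c` computes `ψ` with a program: a translate `g` of a member of `T` which is
disjoint from `c` and not itself in `T`, such that `c ⊔ g` computes `ψ`. -/
def ComputesWithProgram {d : ℕ} {S : Type} (A : CA d S) (T : Set (Cfg d S)) (ι : ℕ → Cfg d S)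
    (c : Cfg d S) (ψ : ℕ →. ℕ) : Prop :=
  ∃ f ∈ T, ∃ τ : Fin d → ℤ, A.Disj (Pool.Agent.Q201.CU.translate f τ) c ∧
    Pool.Agent.Q201.CU.translate f τ ∉ T ∧
    A.Computes T ι (A.join c (Pool.Agent.Q201.CU.translate f τ)) ψ

/-- For every `d ≥ 1` there are a cellular automaton on `ℤ^d` and a Turing domain such that every
partial recursive function is computed by a finite configuration, while
(1) any two partial functions computed by one configuration with programs agree where both are
defined;
(2) for any `m` configurations one of the constant functions `0, ..., m` is computed by none of them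
with any program;
(3) no configuration is a universal computer. -/
theorem result (d : ℕ) (hd : 1 ≤ d) :
    ∃ (S : Type) (_ : Finite S) (A : CA d S) (T : Set (Cfg d S)) (ι : ℕ → Cfg d S),
      A.TuringDomain T ι ∧
      (∀ ψ : ℕ →. ℕ, Partrec ψ → ∃ c : Cfg d S, (A.Supp c).Finite ∧ A.Computes T ι c ψ) ∧
      (∀ (c : Cfg d S) (ψ φ : ℕ →. ℕ), ComputesWithProgram A T ι c ψ →
        ComputesWithProgram A T ι c φ → ∀ n i j : ℕ, i ∈ ψ n → j ∈ φ n → i = j) ∧
      (∀ (m : ℕ) (c : Fin m → Cfg d S), ∃ i ≤ m, ∀ k : Fin m,
        ¬ ComputesWithProgram A T ι (c k) fun _ => Part.some i) ∧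
      ∀ c : Cfg d S, ¬ A.UniversalComputer T ι c := by
  obtain ⟨e, rfl⟩ : ∃ e, d = e + 1 := ⟨d - 1, by omega⟩
  obtain ⟨N, L, ins, hlast, hU⟩ := exists_univ
  have h3 : ∀ (c : Cfg (e + 1) (Cell (N + 3) (Fin (L + 1) ⊕ Bool))) (ψ φ : ℕ →. ℕ),
      ComputesWithProgram (autd ins e) (dom e N _) (inp e N _) c ψ →
      ComputesWithProgram (autd ins e) (dom e N _) (inp e N _) c φ →
      ∀ n i j : ℕ, i ∈ ψ n → j ∈ φ n → i = j := by
    rintro c ψ φ ⟨f, hf, τ, _, h1, h2⟩ ⟨g, hg, σ, _, h1', h2'⟩ n i j hi hj
    exact compatible ins c ψ φ f g hf hg τ σ h1 h1' h2 h2' n i j hi hj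
  have h4 : ∀ (m : ℕ) (c : Fin m → Cfg (e + 1) (Cell (N + 3) (Fin (L + 1) ⊕ Bool))),
      ∃ i ≤ m, ∀ k : Fin m,
        ¬ ComputesWithProgram (autd ins e) (dom e N _) (inp e N _) (c k) fun _ => Part.some i := by
    intro m c
    by_contra hcon
    push Not at hcon
    choose k hk using fun i : Fin (m + 1) => hcon i (by omega)
    obtain ⟨i, j, hij, hkk⟩ := Fintype.exists_ne_map_eq_of_card_lt k (by simp)
    have h1 := hk i
    have h2 := hk j
    rw [← hkk] at h2
    exact hij (Fin.ext (h3 _ _ _ h1 h2 0 i j (Part.mem_some _) (Part.mem_some _)))
  refine ⟨Cell (N + 3) (Fin (L + 1) ⊕ Bool), inferInstance, autd ins e, dom e N _, inp e N _,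
    turingDomain ins, fun ψ hψ => computes L ins hlast hU ψ hψ, h3, h4, ?_⟩
  rintro c ⟨_, hc⟩
  obtain ⟨i, _, hi⟩ := h4 1 fun _ => c
  exact hi 0 (hc _ (Computable.const i).partrec)

end Pool.Agent.Results.MP_8a6a08_lc.AllDimensions
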